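import Mathlib

/-!
Statements of lemmas (tasks of helper15, arbitrary characteristic).
-/

set_option autoImplicit false

open IntermediateField

namespace Pool.Agent.Z15P

/-- the integral closure of `k[f]` in a finite extension of `k(f)` is a finite `k[f]`-module; the
characteristic is arbitrary and the extension may be inseparable -/
def P_IC : Prop :=
  ∀ (k K : Type) [Field k] [Field K] [Algebra k K] (f : K), Transcendental k f →
    FiniteDimensional k⟮f⟯ K →
    Module.Finite (Algebra.adjoin k {f}) (integralClosure (Algebra.adjoin k {f}) K)

end Pool.Agent.Z15P
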