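import Pool.Agent.Z15P.FF

/-! Divisors, Riemann-Roch spaces and Riemann's theorem. -/

set_option autoImplicit false
set_option linter.all false
set_option linter.overlappingInstances false

open Module IsDedekindDomain IntermediateField

namespace FF

namespace PP

variable {k K : Type} [Field k] [Field K] [Algebra k K] [IsFF k K]

theorem finite_support (f : K) : {P : Place k K | P.ord f ≠ 0}.Finite := by
  by_cases hf : IsAlgebraic k f
  · convert Set.finite_empty
    ext P
    simp only [Set.mem_setOf_eq, Set.mem_empty_iff_false, iff_false, not_not]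
    by_cases hf0 : f = 0
    · rw [hf0, P.ord_zero]
    · exact P.ord_eq_zero_of_isAlgebraic hf0 hf
  · obtain ⟨S, hS, -⟩ := zeros (k := k) (f := f) hf
    obtain ⟨T, hT, -⟩ := poles (k := k) (f := f) hf
    refine (S.finite_toSet.union T.finite_toSet).subset ?_
    intro P hP
    simp only [Set.mem_setOf_eq] at hP
    rcases lt_or_gt_of_ne hP with h | h
    · right; exact Finset.mem_coe.2 ((hT P).2 h)
    · left; exact Finset.mem_coe.2 ((hS P).2 h)

variable (k) in
/-- The divisor of `f` (zero for `f = 0`). -/
noncomputable def divisor (f : K) : Place k K →₀ ℤ :=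
  Finsupp.ofSupportFinite (fun P => P.ord f) (finite_support f)

theorem divisor_apply (f : K) (P : Place k K) : divisor k f P = P.ord f := rfl

/-- The degree of a divisor. -/
noncomputable def ddeg (D : Place k K →₀ ℤ) : ℤ := D.sum fun P n => n * P.deg

theorem ddeg_add (D E : Place k K →₀ ℤ) : ddeg (D + E) = ddeg D + ddeg E := by
  unfold ddeg
  rw [Finsupp.sum_add_index']
  · intro; simp
  · intro P a b; ring

theorem ddeg_zero : ddeg (0 : Place k K →₀ ℤ) = 0 := by simp [ddeg]

theorem ddeg_neg (D : Place k K →₀ ℤ) : ddeg (-D) = - ddeg D := by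
  have := ddeg_add D (-D)
  rw [add_neg_cancel, ddeg_zero] at this
  omega

theorem ddeg_sub (D E : Place k K →₀ ℤ) : ddeg (D - E) = ddeg D - ddeg E := by
  rw [sub_eq_add_neg, ddeg_add, ddeg_neg]; ring

theorem ddeg_single (P : Place k K) (n : ℤ) : ddeg (Finsupp.single P n) = n * P.deg := by
  unfold ddeg; rw [Finsupp.sum_single_index]; simp

theorem ddeg_nsmul (n : ℕ) (D : Place k K →₀ ℤ) : ddeg (n • D) = n * ddeg D := by
  induction n with
  | zero => simp [ddeg_zero]
  | succ n ih => rw [add_smul, ddeg_add, ih, one_smul]; push_cast; ring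

theorem ddeg_nonneg {D : Place k K →₀ ℤ} (h : 0 ≤ D) : 0 ≤ ddeg D := by
  unfold ddeg
  apply Finset.sum_nonneg
  intro P _
  exact mul_nonneg (h P) (by positivity)

theorem ddeg_mono {D E : Place k K →₀ ℤ} (h : D ≤ E) : ddeg D ≤ ddeg E := by
  have : 0 ≤ ddeg (E - D) := ddeg_nonneg (sub_nonneg.2 h)
  rw [ddeg_sub] at this; omega

/-- The pole divisor. -/
noncomputable def polar (f : K) : Place k K →₀ ℤ :=
  (divisor k f).mapRange (fun n => max (-n) 0) (by simp)

theorem polar_apply (f : K) (P : Place k K) : polar f P = max (- P.ord f) 0 := by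
  unfold polar; rw [Finsupp.mapRange_apply, divisor_apply]

theorem polar_nonneg (f : K) : (0 : Place k K →₀ ℤ) ≤ polar f := by
  intro P; rw [polar_apply]; simp

theorem ddeg_polar {f : K} (hf : Transcendental k f) : ddeg (polar (k := k) f) = finrank k⟮f⟯ K := by
  obtain ⟨S, hS, hS2⟩ := poles (k := k) (f := f) hf
  rw [← hS2]
  unfold ddeg
  rw [Finsupp.sum_of_support_subset (s := S)]
  · push_cast
    refine Finset.sum_congr rfl fun P hP => ?_
    have := (hS P).1 hP
    rw [polar_apply, max_eq_left (by omega), Int.toNat_of_nonneg (by omega)]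
  · intro P hP
    rw [Finsupp.mem_support_iff, polar_apply] at hP
    rw [hS]
    by_contra hc
    exact hP (max_eq_right (by omega))
  · intro P _; simp

theorem ddeg_divisor (f : K) : ddeg (divisor k f) = 0 := by
  by_cases hf : IsAlgebraic k f
  · have : divisor k f = 0 := by
      ext P
      rw [divisor_apply]
      by_cases hf0 : f = 0
      · rw [hf0, P.ord_zero]; rfl
      · exact P.ord_eq_zero_of_isAlgebraic hf0 hf
    rw [this, ddeg_zero]
  · have hf' : Transcendental k f⁻¹ := by
      intro h; apply hf; simpa using h.inv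
    have h1 : divisor k f = polar f⁻¹ - polar f := by
      ext P
      rw [Finsupp.sub_apply, polar_apply, polar_apply, divisor_apply, P.ord_inv]
      omega
    rw [h1, ddeg_sub, ddeg_polar hf', ddeg_polar hf, adjoin_inv]
    simp

theorem exists_place : ∃ P : Place k K, True := by
  obtain ⟨f, hf⟩ := IsFF.exists_transcendental (k := k) (K := K)
  obtain ⟨S, hS, hS2⟩ := poles (k := k) (f := f) hf
  have := IsFF.finite hf
  have h1 : 0 < finrank k⟮f⟯ K := finrank_pos
  by_contra hc
  push Not at hc
  have : S = ∅ := by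
    ext P; exact (hc P).elim
  rw [this] at hS2
  simp at hS2
  omega

/-- The Riemann-Roch space. -/
def LL (D : Place k K →₀ ℤ) : Submodule k K where
  carrier := {f | f = 0 ∨ ∀ P : Place k K, - D P ≤ P.ord f}
  zero_mem' := Or.inl rfl
  add_mem' := by
    intro f g hf hg
    by_cases hf0 : f = 0
    · rwa [hf0, zero_add]
    by_cases hg0 : g = 0
    · rwa [hg0, add_zero]
    by_cases hfg : f + g = 0
    · exact Or.inl hfg
    · right
      intro P
      exact (le_min ((hf.resolve_left hf0) P) ((hg.resolve_left hg0) P)).trans (P.ord_add hf0 hg0 hfg)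
  smul_mem' := by
    intro c f hf
    by_cases hc : c = 0
    · left; rw [hc, zero_smul]
    by_cases hf0 : f = 0
    · left; rw [hf0, smul_zero]
    · right
      intro P
      rw [Algebra.smul_def, P.ord_mul (by simpa using hc) hf0, P.ord_const hc, zero_add]
      exact (hf.resolve_left hf0) P

theorem mem_LL {D : Place k K →₀ ℤ} {f : K} : f ∈ LL D ↔ f = 0 ∨ ∀ P : Place k K, - D P ≤ P.ord f := Iff.rfl

theorem mem_LL' {D : Place k K →₀ ℤ} {f : K} (hf : f ≠ 0) : f ∈ LL D ↔ 0 ≤ divisor k f + D := by
  rw [mem_LL]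
  constructor
  · intro h P
    have := (h.resolve_left hf) P
    simp only [Finsupp.coe_zero, Pi.zero_apply, Finsupp.coe_add, Pi.add_apply, divisor_apply]
    omega
  · intro h
    right
    intro P
    have := h P
    simp only [Finsupp.coe_zero, Pi.zero_apply, Finsupp.coe_add, Pi.add_apply, divisor_apply] at this
    omega

theorem LL_mono {D E : Place k K →₀ ℤ} (h : D ≤ E) : LL D ≤ LL E := by
  intro f hf
  rcases hf with hf | hf
  · exact Or.inl hf
  · right; intro P; have := hf P; have := h P; omega

theorem LL_eq_bot {D : Place k K →₀ ℤ} (h : ddeg D < 0) : LL D = ⊥ := by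
  rw [eq_bot_iff]
  intro f hf
  rw [Submodule.mem_bot]
  by_contra hf0
  rw [mem_LL' hf0] at hf
  have := ddeg_nonneg hf
  rw [ddeg_add, ddeg_divisor] at this
  omega

theorem LL_step (D : Place k K →₀ ℤ) (P : Place k K) (h : FiniteDimensional k (LL D)) :
    FiniteDimensional k (LL (D + Finsupp.single P 1)) ∧
      finrank k (LL (D + Finsupp.single P 1)) ≤ finrank k (LL D) + P.deg := by
  classical
  obtain ⟨t, ht0, ht⟩ := P.surj
  let D' := D + Finsupp.single P 1
  have hreg : ∀ f : LL D', P.Reg (f.1 * t ^ (D P + 1)) := by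
    rintro ⟨f, hf⟩
    by_cases hf0 : f = 0
    · left; simp [hf0]
    · right
      have h1 := (hf.resolve_left hf0) P
      rw [P.ord_mul hf0 (zpow_ne_zero _ ht0), P.ord_zpow, ht]
      simp only [D', Finsupp.add_apply, Finsupp.single_eq_same] at h1
      omega
  let φ : LL D' →ₗ[k] P.RF :=
    { toFun := fun f => P.red (f.1 * t ^ (D P + 1))
      map_add' := by
        intro f g
        rw [← P.red_add (hreg f) (hreg g), ← add_mul]; rfl
      map_smul' := by
        intro c f
        rw [RingHom.id_apply, Algebra.smul_def c (P.red _), Place.algebraMap_RF,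
          ← P.red_mul (P.reg_const c) (hreg f), ← mul_assoc, ← Algebra.smul_def]; rfl }
  have hker : LinearMap.ker φ = (LL D).comap (LL D').subtype := by
    ext f
    rw [LinearMap.mem_ker, Submodule.mem_comap]
    change P.red (f.1 * t ^ (D P + 1)) = 0 ↔ f.1 ∈ LL D
    rw [P.red_eq_zero_iff (hreg f)]
    by_cases hf0 : f.1 = 0
    · simp [hf0]
    · rw [P.ord_mul hf0 (zpow_ne_zero _ ht0), P.ord_zpow, ht]
      have h1 : f.1 * t ^ (D P + 1) ≠ 0 := mul_ne_zero hf0 (zpow_ne_zero _ ht0)
      simp only [h1, false_or]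
      rw [mem_LL]
      simp only [hf0, false_or]
      constructor
      · intro h2 Q
        by_cases hQ : Q = P
        · subst hQ; omega
        · have := (f.2.resolve_left hf0) Q
          simp only [D', Finsupp.add_apply, Finsupp.single_eq_of_ne hQ] at this
          omega
      · intro h2
        have := h2 P; omega
  have hle : LL D ≤ LL D' := by
    apply LL_mono
    intro Q
    simp only [D', Finsupp.add_apply]
    have : (0 : ℤ) ≤ Finsupp.single P 1 Q := by
      by_cases hQ : Q = P
      · subst hQ; simp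
      · rw [Finsupp.single_eq_of_ne hQ]
    omega
  let e : LinearMap.ker φ ≃ₗ[k] LL D := (LinearEquiv.ofEq _ _ hker).trans (Submodule.comapSubtypeEquivOfLe hle)
  have h1 : FiniteDimensional k (LinearMap.ker φ) := e.symm.finiteDimensional
  have h2 : FiniteDimensional k (LL D' ⧸ LinearMap.ker φ) := φ.quotKerEquivRange.symm.finiteDimensional
  have h3 : FiniteDimensional k (LL D') := Module.Finite.of_submodule_quotient (LinearMap.ker φ)
  refine ⟨h3, ?_⟩
  have h4 := LinearMap.finrank_range_add_finrank_ker φ
  rw [e.finrank_eq] at h4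
  have h5 : finrank k (LinearMap.range φ) ≤ P.deg := Submodule.finrank_le _
  change finrank k (LL D') ≤ _
  omega

/-- natural valued divisors -/
noncomputable def nd : (Place k K →₀ ℕ) →+ (Place k K →₀ ℤ) :=
  Finsupp.mapRange.addMonoidHom (Nat.castAddMonoidHom ℤ)

theorem nd_single (P : Place k K) (n : ℕ) : nd (Finsupp.single P n) = Finsupp.single P (n : ℤ) := by
  simp [nd]

theorem exists_nd {D E : Place k K →₀ ℤ} (h : D ≤ E) : ∃ F : Place k K →₀ ℕ, E = D + nd F := by
  refine ⟨(E - D).mapRange Int.toNat rfl, ?_⟩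
  ext P
  have := h P
  simp only [nd, Finsupp.add_apply, Finsupp.mapRange.addMonoidHom_apply, Finsupp.mapRange_apply,
    Finsupp.sub_apply, Nat.coe_castAddMonoidHom]
  omega

theorem LL_add (F : Place k K →₀ ℕ) : ∀ D : Place k K →₀ ℤ, FiniteDimensional k (LL D) →
    FiniteDimensional k (LL (D + nd F)) ∧
      (finrank k (LL (D + nd F)) : ℤ) ≤ finrank k (LL D) + ddeg (nd F) := by
  induction F using Finsupp.induction_linear with
  | zero =>
    intro D h
    rw [map_zero, add_zero, ddeg_zero]
    exact ⟨h, by simp⟩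
  | add F G hF hG =>
    intro D h
    rw [map_add, ← add_assoc]
    obtain ⟨h1, h2⟩ := hF D h
    obtain ⟨h3, h4⟩ := hG _ h1
    refine ⟨h3, ?_⟩
    rw [ddeg_add]; omega
  | single P n =>
    induction n with
    | zero =>
      intro D h
      rw [Finsupp.single_zero, map_zero, add_zero, ddeg_zero]
      exact ⟨h, by simp⟩
    | succ n ih =>
      intro D h
      rw [Finsupp.single_add, map_add, ← add_assoc]
      obtain ⟨h1, h2⟩ := ih D h
      obtain ⟨h3, h4⟩ := LL_step _ P h1
      have h5 : nd (Finsupp.single P 1) = Finsupp.single P 1 := by rw [nd_single]; simp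
      rw [h5]
      refine ⟨h3, ?_⟩
      rw [ddeg_add, ddeg_single]
      push_cast at *
      omega

instance finDim_LL (D : Place k K →₀ ℤ) : FiniteDimensional k (LL D) := by
  obtain ⟨P, -⟩ := exists_place (k := k) (K := K)
  have hP := (deg_pos P)
  let n : ℕ := (ddeg D).toNat + 1
  have h1 : ddeg (D - nd (Finsupp.single P n)) < 0 := by
    rw [ddeg_sub, nd_single, ddeg_single]
    have : (n : ℤ) * 1 ≤ n * P.deg := by
      apply mul_le_mul_of_nonneg_left _ (by positivity)
      exact_mod_cast hP
    omega
  have h2 : FiniteDimensional k (LL (D - nd (Finsupp.single P n))) := by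
    rw [LL_eq_bot h1]; infer_instance
  have h3 := (LL_add (Finsupp.single P n) _ h2).1
  rwa [sub_add_cancel] at h3

/-- The dimension of a Riemann-Roch space -/
noncomputable def ell (D : Place k K →₀ ℤ) : ℤ := finrank k (LL D)

theorem ell_le {D E : Place k K →₀ ℤ} (h : D ≤ E) : ell E ≤ ell D + (ddeg E - ddeg D) := by
  obtain ⟨F, rfl⟩ := exists_nd h
  have := (LL_add F D inferInstance).2
  unfold ell
  rw [ddeg_add]; omega

theorem ell_nonneg (D : Place k K →₀ ℤ) : 0 ≤ ell D := by unfold ell; positivity

theorem ell_mono {D E : Place k K →₀ ℤ} (h : D ≤ E) : ell D ≤ ell E := by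
  unfold ell
  exact_mod_cast Submodule.finrank_mono (LL_mono h)

theorem exists_ne_zero_of_ell_pos {D : Place k K →₀ ℤ} (h : 0 < ell D) : ∃ f ∈ LL D, f ≠ 0 := by
  unfold ell at h
  have h1 : 0 < finrank k (LL D) := by exact_mod_cast h
  rw [finrank_pos_iff_exists_ne_zero] at h1
  obtain ⟨f, hf⟩ := h1
  exact ⟨f.1, f.2, by simpa using hf⟩

/-- Multiplication by `z`. -/
noncomputable def mulEquiv (D : Place k K →₀ ℤ) {z : K} (hz : z ≠ 0) : LL (D + divisor k z) ≃ₗ[k] LL D where
  toFun f := ⟨z * f.1, by
    by_cases hf0 : f.1 = 0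
    · left; rw [hf0, mul_zero]
    · right
      intro P
      have := (f.2.resolve_left hf0) P
      simp only [Finsupp.add_apply, divisor_apply] at this
      rw [P.ord_mul hz hf0]; omega⟩
  map_add' f g := Subtype.ext (mul_add _ _ _)
  map_smul' c f := Subtype.ext (mul_smul_comm _ _ _)
  invFun f := ⟨z⁻¹ * f.1, by
    by_cases hf0 : f.1 = 0
    · left; rw [hf0, mul_zero]
    · right
      intro P
      have := (f.2.resolve_left hf0) P
      simp only [Finsupp.add_apply, divisor_apply]
      rw [P.ord_mul (inv_ne_zero hz) hf0, P.ord_inv]; omega⟩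
  left_inv f := Subtype.ext (inv_mul_cancel_left₀ hz _)
  right_inv f := Subtype.ext (mul_inv_cancel_left₀ hz _)

theorem ell_add_divisor (D : Place k K →₀ ℤ) {z : K} (hz : z ≠ 0) : ell (D + divisor k z) = ell D := by
  unfold ell
  rw [(mulEquiv D hz).finrank_eq]

theorem divisor_mul {f g : K} (hf : f ≠ 0) (hg : g ≠ 0) : divisor k (f * g) = divisor k f + divisor k g := by
  ext P; rw [Finsupp.add_apply]; exact P.ord_mul hf hg

theorem divisor_inv (f : K) : divisor k f⁻¹ = - divisor k f := by
  ext P; rw [Finsupp.neg_apply]; exact P.ord_inv f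

end PP

end FF
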