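import Pool.Agent.T2h25.Z15P.IC

/-!
Finiteness of integral closures of `k[f]`, all characteristics.
-/

set_option autoImplicit false

namespace Pool.Agent.Z15P

theorem ic : P_IC := Pool.Agent.T2h25.Z15P.t_IC

end Pool.Agent.Z15P
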