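import Pool.Agent.Helper386.D5V.Helper386_FF_Div
import Pool.Agent.Z15P.IC

/-! The fundamental identity for function fields in one variable, all characteristics. -/

set_option autoImplicit false
set_option linter.all false
set_option linter.overlappingInstances false
set_option linter.unusedSimpArgs false
set_option linter.deprecated false

open Module IsDedekindDomain IntermediateField

namespace FF

namespace PP

section

variable {k A L : Type*} (K0 : Type*) [Field k] [CommRing A] [IsDedekindDomain A] [Algebra k A]
  [Field K0] [Algebra A K0] [IsFractionRing A K0] [Field L] [Algebra K0 L] [Algebra A L]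
  [IsScalarTower A K0 L] [FiniteDimensional K0 L]
  [Algebra k L] [IsScalarTower k A L]

omit [Field k] [Algebra k A] [Algebra k L] [IsScalarTower k A L] in
include K0 in
theorem dedekind (hfin : Module.Finite A (integralClosure A L)) :
    IsDedekindDomain (integralClosure A L) := by
  have h1 : IsFractionRing (integralClosure A L) L :=
    integralClosure.isFractionRing_of_finite_extension K0 L
  have h2 : IsNoetherian A (integralClosure A L) := isNoetherian_of_isNoetherianRing_of_finite A _
  exact
  { isNoetherianRing_iff.mpr (isNoetherian_of_tower A h2),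
    Ring.DimensionLEOne.of_isIntegral A (integralClosure A L),
    (isIntegrallyClosed_iff L).mpr fun {x} hx =>
      ⟨IsIntegralClosure.mk' (integralClosure A L) x (isIntegral_trans (R := A) _ hx),
        IsIntegralClosure.algebraMap_mk' _ _ _⟩ with : IsDedekindDomain (integralClosure A L) }

theorem fundamental (hfin : Module.Finite A (integralClosure A L)) (π : A) (hπ : π ≠ 0)
    (hmax : (Ideal.span {π}).IsMaximal) :
    ∃ S : Finset (Place k L), (∀ w, w ∈ S ↔ (∀ a : A, w.Reg (algebraMap A L a)) ∧
      0 < w.ord (algebraMap A L π)) ∧ (∀ w ∈ S, 0 < w.relf A) ∧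
      ∑ w ∈ S, (w.ord (algebraMap A L π)).toNat * w.relf A = finrank K0 L := by
  classical
  let p : Ideal A := Ideal.span {π}
  have hp0 : p ≠ ⊥ := by
    simp [p, Ideal.span_singleton_eq_bot, hπ]
  let B := integralClosure A L
  have : IsFractionRing B L := integralClosure.isFractionRing_of_finite_extension K0 L
  have hfin : Module.Finite A B := hfin
  have : IsDedekindDomain B := dedekind (A := A) (L := L) K0 hfin
  have hsc : IsScalarTower k B L := by
    refine IsScalarTower.of_algebraMap_eq fun c => ?_
    rw [IsScalarTower.algebraMap_apply k A B, ← IsScalarTower.algebraMap_apply A B L,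
      ← IsScalarTower.algebraMap_apply k A L]
  have hinj : Function.Injective (algebraMap A L) := by
    rw [IsScalarTower.algebraMap_eq A K0 L]
    exact (algebraMap K0 L).injective.comp (IsFractionRing.injective A K0)
  have htf : Module.IsTorsionFree A B := by
    have hinj' : Function.Injective (algebraMap A B) := by
      intro a b h
      apply hinj
      rw [IsScalarTower.algebraMap_apply A B L, IsScalarTower.algebraMap_apply A B L, h]
    exact Module.isTorsionFree_iff_algebraMap_injective.2 hinj'
  let v : HeightOneSpectrum A := ⟨p, hmax.isPrime, hp0⟩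
  have hmax' : p.IsMaximal := hmax
  -- primes over p
  have hmem : ∀ P : Ideal B, P ∈ IsDedekindDomain.primesOverFinset p B ↔ P.IsPrime ∧ P.LiesOver p := by
    intro P
    exact IsDedekindDomain.mem_primesOverFinset_iff hp0 B
  have hbot : ∀ P : Ideal B, P.LiesOver p → P ≠ ⊥ := by
    intro P hP h0
    have h1 : p = P.comap (algebraMap A B) := hP.over
    rw [h0, ← RingHom.ker_eq_comap_bot,
      (RingHom.injective_iff_ker_eq_bot _).1 (FaithfulSMul.algebraMap_injective A B)] at h1
    exact hp0 h1
  let g : {P : Ideal B // P ∈ IsDedekindDomain.primesOverFinset p B} → Place k L := fun P =>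
    placeOf ⟨P.1, ((hmem P.1).1 P.2).1, hbot P.1 ((hmem P.1).1 P.2).2⟩
  have hg : Function.Injective g := by
    intro P Q h
    have := placeOf_injective h
    exact Subtype.ext (congrArg HeightOneSpectrum.asIdeal this)
  have hregA : ∀ P, ∀ a : A, (g P).Reg (algebraMap A L a) := by
    intro P a
    rw [IsScalarTower.algebraMap_apply A B L]
    exact placeOf_reg _ _
  have hrel : ∀ P, Ideal.inertiaDeg' p P.1 = (g P).relf A := by
    intro P
    obtain ⟨hPp, hPl⟩ := (hmem P.1).1 P.2
    let P' : HeightOneSpectrum B := ⟨P.1, hPp, hbot P.1 hPl⟩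
    have hlo : P'.asIdeal.LiesOver v.asIdeal := hPl
    rw [Ideal.inertiaDeg'_algebraMap]
    unfold Place.relf
    let φ : B →+* (g P).RF := (g P).redHom (algebraMap B L) (placeOf_reg P')
    have hφs : Function.Surjective φ := placeOf_redHom_surjective (k := k) (L := L) P'
    have hker : ∀ b, φ b = 0 ↔ b ∈ P.1 := placeOf_red_eq_zero (k := k) (L := L) P'
    let j0 : B ⧸ P.1 →+* (g P).RF := Ideal.Quotient.lift P.1 φ (fun b hb => (hker b).2 hb)
    have hj0 : Function.Bijective j0 := by
      constructor
      · rw [injective_iff_map_eq_zero]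
        intro b hb
        obtain ⟨b, rfl⟩ := Ideal.Quotient.mk_surjective b
        rw [Ideal.Quotient.eq_zero_iff_mem, ← hker]
        exact hb
      · intro c
        obtain ⟨b, hb⟩ := hφs c
        exact ⟨Ideal.Quotient.mk _ b, hb⟩
    let j := RingEquiv.ofBijective j0 hj0
    let i0 : A ⧸ p →+* (g P).RF := j0.comp (algebraMap (A ⧸ p) (B ⧸ P.1))
    have hi0 : ∀ a : A, i0 (Ideal.Quotient.mk p a) = (g P).red (algebraMap A L a) := by
      intro a
      change j0 (Ideal.Quotient.mk _ (algebraMap A B a)) = _
      change (g P).red (algebraMap B L (algebraMap A B a)) = _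
      rw [← IsScalarTower.algebraMap_apply A B L]
    let instF : Field (A ⧸ p) := Ideal.Quotient.field p
    let F := Subfield.closure (Set.range fun a : A => (g P).red (algebraMap A L a))
    have hF : ∀ c, i0 c ∈ F := by
      intro c
      obtain ⟨a, rfl⟩ := Ideal.Quotient.mk_surjective c
      rw [hi0]
      exact Subfield.subset_closure ⟨a, rfl⟩
    let i1 : A ⧸ p →+* F := i0.codRestrict F hF
    have hi1 : Function.Bijective i1 := by
      constructor
      · exact i1.injective
      · rintro ⟨c, hc⟩
        have h1 : F ≤ i0.fieldRange := by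
          rw [Subfield.closure_le]
          rintro _ ⟨a, rfl⟩
          exact ⟨Ideal.Quotient.mk p a, hi0 a⟩
        obtain ⟨d, hd⟩ := h1 hc
        exact ⟨d, Subtype.ext hd⟩
    let i := RingEquiv.ofBijective i1 hi1
    refine Algebra.finrank_eq_of_equiv_equiv i j ?_
    ext c
    rfl
  refine ⟨Finset.univ.image g, ?_, ?_, ?_⟩
  · intro w
    rw [Finset.mem_image]
    constructor
    · rintro ⟨P, -, rfl⟩
      refine ⟨hregA P, ?_⟩
      have h1 : (g P).red (algebraMap A L π) = 0 := by
        rw [IsScalarTower.algebraMap_apply A B L]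
        rw [placeOf_red_eq_zero]
        have := ((hmem P.1).1 P.2).2
        change algebraMap A B π ∈ P.1
        rw [← Ideal.mem_comap, ← Ideal.under_def, ← this.over]
        exact Ideal.mem_span_singleton_self π
      rw [Place.red_eq_zero_iff _ (hregA P π)] at h1
      rcases h1 with h1 | h1
      · exact absurd (hinj (h1.trans (map_zero _).symm)) hπ
      · exact h1
    · rintro ⟨h1, h2⟩
      have hreg : ∀ b : B, w.Reg (algebraMap B L b) := fun b => w.reg_of_isIntegral h1 b.2
      obtain ⟨P, rfl⟩ := exists_placeOf_eq (B := B) w hreg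
      have hlo : P.asIdeal.LiesOver p := by
        constructor
        have : (P.asIdeal.comap (algebraMap A B)).IsPrime := Ideal.IsPrime.comap _ (hK := P.isPrime)
        refine Ideal.IsMaximal.eq_of_le hmax' this.ne_top ?_
        rw [Ideal.span_le, Set.singleton_subset_iff]
        change algebraMap A B π ∈ P.asIdeal
        rw [← placeOf_red_eq_zero (k := k) (L := L) P, Place.red_eq_zero_iff _ (hreg _),
          ← IsScalarTower.algebraMap_apply A B L]
        exact Or.inr h2
      exact ⟨⟨P.asIdeal, (hmem _).2 ⟨P.isPrime, hlo⟩⟩, Finset.mem_univ _, rfl⟩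
  · intro w hw
    rw [Finset.mem_image] at hw
    obtain ⟨P, -, rfl⟩ := hw
    rw [← hrel]
    obtain ⟨hPp, hPl⟩ := (hmem P.1).1 P.2
    exact Ideal.inertiaDeg'_pos p P.1
  · rw [Finset.sum_image (fun a _ b _ h => hg h)]
    have hsum := Ideal.sum_ramification_inertia B K0 L hp0
    rw [← hsum, ← Finset.sum_coe_sort (IsDedekindDomain.primesOverFinset p B)]
    refine Finset.sum_congr rfl fun P _ => ?_
    obtain ⟨hPp, hPl⟩ := (hmem P.1).1 P.2
    let P' : HeightOneSpectrum B := ⟨P.1, hPp, hbot P.1 hPl⟩
    have hlo : P'.asIdeal.LiesOver v.asIdeal := hPl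
    congr 1
    · have h1 := HeightOneSpectrum.valuation_liesOver L v P' (algebraMap A K0 π)
      have h2 : v.valuation K0 (algebraMap A K0 π) = WithZero.exp (-1) := by
        rw [HeightOneSpectrum.valuation_of_algebraMap]
        exact v.intValuation_singleton hπ rfl
      rw [h2, ← IsScalarTower.algebraMap_apply A K0 L] at h1
      have h3 : (g P).ord (algebraMap A L π) = - WithZero.log (P'.valuation L (algebraMap A L π)) := rfl
      rw [h3, ← h1, WithZero.log_pow, WithZero.log_exp]
      simp [v, P']
    · exact (hrel P).symm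

end

section

variable {k K : Type} [Field k] [Field K] [Algebra k K]

theorem zeros [h : IsFF k K] {f : K} (hf : Transcendental k f) :
    ∃ S : Finset (Place k K), (∀ w, w ∈ S ↔ 0 < w.ord f) ∧ (∀ w ∈ S, 0 < w.deg) ∧
      ∑ w ∈ S, (w.ord f).toNat * w.deg = finrank k⟮f⟯ K := by
  open scoped algebraAdjoinAdjoin in
  let A := Algebra.adjoin k {f}
  let e := Polynomial.algEquivOfTranscendental k f hf
  have hpid : IsPrincipalIdealRing A := IsPrincipalIdealRing.of_surjective e.toRingEquiv e.surjective
  have hded : IsDedekindDomain A := inferInstance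
  have hfin := IsFF.finite hf
  have hic : Module.Finite A (integralClosure A K) := Pool.Agent.Z15P.ic k K f hf hfin
  let π : A := ⟨f, Algebra.self_mem_adjoin_singleton k f⟩
  have hf0 : f ≠ 0 := by
    rintro rfl
    exact hf (isAlgebraic_zero)
  have hπ : π ≠ 0 := by
    intro h; exact hf0 (congrArg Subtype.val h)
  have heπ : e Polynomial.X = π := Polynomial.algEquivOfTranscendental_apply_X k f hf
  have hmax : (Ideal.span {π}).IsMaximal := by
    have h1 : (Ideal.span {(Polynomial.X : Polynomial k)}).IsMaximal := by
      have := PrincipalIdealRing.isMaximal_of_irreducible (Polynomial.irreducible_X (R := k))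
      exact this
    have h2 : Ideal.span {π} = Ideal.map e.toRingEquiv.toRingHom (Ideal.span {(Polynomial.X : Polynomial k)}) := by
      rw [Ideal.map_span, Set.image_singleton]
      congr 2
      exact heπ.symm
    rw [h2]
    exact Ideal.map_isMaximal_of_equiv e.toRingEquiv
  obtain ⟨S, hS1, hS2, hS3⟩ := fundamental (k := k) (A := A) (L := K) k⟮f⟯ hic π hπ hmax
  have hreg : ∀ w : Place k K, 0 < w.ord f → ∀ a : A, w.Reg (algebraMap A K a) := by
    rintro w hw ⟨a, ha⟩
    change w.Reg a
    induction ha using Algebra.adjoin_induction with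
    | mem x hx =>
      rw [Set.mem_singleton_iff] at hx
      subst hx
      exact Or.inr hw.le
    | algebraMap r => exact w.reg_const r
    | add x y _ _ hx hy => exact w.reg_add hx hy
    | mul x y _ _ hx hy => exact w.reg_mul hx hy
  have hS1' : ∀ w, w ∈ S ↔ 0 < w.ord f := by
    intro w
    rw [hS1]
    exact ⟨fun h => h.2, fun h => ⟨hreg w h, h⟩⟩
  have hdeg : ∀ w ∈ S, w.relf A = w.deg := by
    intro w hw
    have hw0 := (hS1' w).1 hw
    have h1 : ∀ a : A, ∃ c : k, w.red (algebraMap A K a) = algebraMap k w.RF c := by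
      rintro ⟨a, ha⟩
      change ∃ c : k, w.red a = algebraMap k w.RF c
      suffices hh : w.Reg a ∧ ∃ c : k, w.red a = algebraMap k w.RF c from hh.2
      induction ha using Algebra.adjoin_induction with
      | mem x hx =>
        rw [Set.mem_singleton_iff] at hx
        subst hx
        have hr : w.Reg x := Or.inr hw0.le
        exact ⟨hr, 0, by rw [map_zero, w.red_eq_zero_iff hr]; exact Or.inr hw0⟩
      | algebraMap r => exact ⟨w.reg_const r, r, rfl⟩
      | add x y _ _ hx hy =>
        obtain ⟨hx, c, hc⟩ := hx
        obtain ⟨hy, d, hd⟩ := hy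
        exact ⟨w.reg_add hx hy, c + d, by rw [w.red_add hx hy, hc, hd, map_add]⟩
      | mul x y _ _ hx hy =>
        obtain ⟨hx, c, hc⟩ := hx
        obtain ⟨hy, d, hd⟩ := hy
        exact ⟨w.reg_mul hx hy, c * d, by rw [w.red_mul hx hy, hc, hd, map_mul]⟩
    have h2 : Subfield.closure (Set.range fun a : A => w.red (algebraMap A K a)) = (algebraMap k w.RF).fieldRange := by
      apply le_antisymm
      · rw [Subfield.closure_le]
        rintro _ ⟨a, rfl⟩
        obtain ⟨c, hc⟩ := h1 a
        exact ⟨c, hc.symm⟩
      · rintro _ ⟨c, rfl⟩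
        apply Subfield.subset_closure
        exact ⟨algebraMap k A c, rfl⟩
    unfold Place.relf Place.deg
    rw [h2]
    let i : k ≃+* (algebraMap k w.RF).fieldRange :=
      RingEquiv.ofBijective (algebraMap k w.RF).rangeRestrictField
        ⟨(algebraMap k w.RF).rangeRestrictField.injective, by
          rintro ⟨_, ⟨c, rfl⟩⟩
          exact ⟨c, rfl⟩⟩
    exact (Algebra.finrank_eq_of_equiv_equiv i (RingEquiv.refl _) (by ext; rfl)).symm
  refine ⟨S, hS1', ?_, ?_⟩
  · intro w hw
    rw [← hdeg w hw]
    exact hS2 w hw
  · rw [← hS3]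
    refine Finset.sum_congr rfl fun w hw => ?_
    rw [hdeg w hw]
    rfl

theorem deg_pos [IsFF k K] (P : Place k K) : 0 < P.deg := by
  obtain ⟨t, ht0, ht⟩ := P.surj
  obtain ⟨S, hS, hS2, -⟩ := zeros (P.transcendental_of_ord_ne (f := t) (by omega))
  exact hS2 P ((hS P).2 (by omega))

instance [IsFF k K] (P : Place k K) : FiniteDimensional k P.RF :=
  FiniteDimensional.of_finrank_pos (deg_pos P)

theorem poles [h : IsFF k K] {f : K} (hf : Transcendental k f) :
    ∃ S : Finset (Place k K), (∀ w, w ∈ S ↔ w.ord f < 0) ∧
      ∑ w ∈ S, (- w.ord f).toNat * w.deg = finrank k⟮f⟯ K := by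
  obtain ⟨S, hS, -, hS3⟩ := zeros (k := k) (K := K) (f := f⁻¹) (by
    intro h; apply hf; simpa using h.inv)
  refine ⟨S, ?_, ?_⟩
  · intro w
    rw [hS, w.ord_inv]; omega
  · rw [adjoin_inv] at hS3
    rw [← hS3]
    refine Finset.sum_congr rfl fun w _ => ?_
    rw [w.ord_inv]

end

end PP

end FF
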